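import Pool.Agent.H98.SD.Asm9

/-!
# MP_e37c09_lc, SecondDichotomy: the final statement with the dichotomy for all regular cardinals
-/

open Ordinal Cardinal Order Set
open scoped ZFSet

universe u

namespace HD.SD

open HD.NF (w0)
open HD.HV (NMeas)

/-- The theorem. -/
def T_FIN : Prop :=
  (∀ L : Cardinal.{u}, SLC ω L → ∀ M : Cardinal.{u}, M.IsRegular → M < L →
    ∀ K : Cardinal.{u}, K.IsRegular → L < K → RflK M.ord K L →
      (WOP L ∨ ∃ τ T, MsrK (fun y => y ⊆ L.ord.toZFSet) M.ord K L τ T) ∧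
      ∀ x, Bde L x → (∀ z, z ⊆ L.ord.toZFSet → NF.ODp x z) ∨
        ∃ τ T, MsrK (fun y => y = x) M.ord K L τ T) ∧
  (∀ L : Cardinal.{u}, SLC ω L → ∀ M : Cardinal.{u}, M.IsRegular → M < L →
    RflK M.ord (succ L) L →
      (WOP L ↔ ¬ ∃ U, CM (NC fun y => y ⊆ L.ord.toZFSet) (succ L).ord U) ∧
      (WOP L ↔ ¬ NoInj L) ∧
      ∀ x, Bde L x →
        ((∀ z, z ⊆ L.ord.toZFSet → NF.ODp x z) ↔ SuX L x) ∧
        ((∀ z, z ⊆ L.ord.toZFSet → NF.ODp x z) ↔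
          ¬ ∃ U, CM (NC fun y => y = x) (succ L).ord U)) ∧
  ∀ δ : Ordinal.{u}, Extendible δ → ∀ L : Cardinal.{u}, SLC δ L →
    SLC ω L ∧
    (∀ M : Cardinal.{u}, M.IsRegular → M.ord < δ → M < L ∧
      ∀ K : Cardinal.{u}, K.IsRegular → L < K → RflK M.ord K L) ∧
    (WOP L ↔ ¬ ∀ K : Cardinal.{u}, K.IsRegular → L < K →
      ∃ U, NMeas (NC fun y => y ⊆ L.ord.toZFSet) K.ord U) ∧
    (∀ x, Bde L x → ((∀ z, z ⊆ L.ord.toZFSet → NF.ODp x z) ↔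
      ¬ ∀ K : Cardinal.{u}, K.IsRegular → L < K → ∃ U, NMeas (NC fun y => y = x) K.ord U)) ∧
    (CaseA δ → WOP L ∧ ∀ x, (∀ m < L.ord, ∀ z, z ⊆ m.toZFSet → NF.ODp x z) →
      ∀ z, z ⊆ L.ord.toZFSet → NF.ODp x z)

theorem nmeas_of_msrK {A : ZFSet.{u} → Prop} {L K M : Cardinal.{u}} (hM : M.IsRegular)
    (hML : M < L) (hK : K.IsRegular) (hLK : L < K) (h : ∃ τ T, MsrK A M.ord K L τ T) :
    ∃ U, NMeas (NC A) K.ord U := by
  obtain ⟨τ, T, hT⟩ := h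
  have h0 : 0 < τ := by
    rcases eq_zero_or_pos τ with h | h
    · exfalso
      have h1 := All.vc M K.ord hM (by rw [hK.cof_ord]; exact hML.trans hLK)
      refine hT.cov (Pos.mono' h1 fun b _ _ i hi => ?_)
      rw [h] at hi
      exact absurd hi not_lt_zero
    · exact h
  exact ⟨_, hT.nrm 0 h0⟩

theorem fin (h : T_MAIN9.{u}) : T_FIN.{u} := by
  obtain ⟨a1, a2, a3⟩ := h
  refine ⟨a1, a2, fun δ hδ L h => ?_⟩
  obtain ⟨e1, e2, e3⟩ := a3 δ hδ L h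
  have hω : (ℵ₀ : Cardinal.{u}).ord < δ := by
    obtain ⟨η, -, θ, j, hE⟩ := All.xa δ hδ 0
    obtain ⟨D, hD, -, -, hD0⟩ := All.xb δ η θ j hE
    rw [hD, Cardinal.ord_lt_ord]
    exact hD0
  obtain ⟨hωL, hR⟩ := e2 ℵ₀ Cardinal.isRegular_aleph0 hω
  have hS : (succ L).IsRegular := Cardinal.isRegular_succ hωL.le
  obtain ⟨d1, -, d3⟩ := a2 L e1 ℵ₀ Cardinal.isRegular_aleph0 hωL (hR (succ L) hS (lt_succ L))
  refine ⟨e1, e2, ⟨fun hz hK => ?_, fun hn => ?_⟩, fun x hx => ⟨fun hz hK => ?_, fun hn => ?_⟩,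
    e3⟩
  · obtain ⟨U, hU⟩ := hK (succ L) hS (lt_succ L)
    exact (d1.1 hz) ⟨U, cm_of_nmeas hU⟩
  · by_contra hz
    refine hn fun K hKr hLK => ?_
    obtain ⟨c1, -⟩ := a1 L e1 ℵ₀ Cardinal.isRegular_aleph0 hωL K hKr hLK (hR K hKr hLK)
    exact nmeas_of_msrK Cardinal.isRegular_aleph0 hωL hKr hLK (c1.resolve_left hz)
  · obtain ⟨U, hU⟩ := hK (succ L) hS (lt_succ L)
    exact ((d3 x hx).2.1 hz) ⟨U, cm_of_nmeas hU⟩
  · by_contra hz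
    refine hn fun K hKr hLK => ?_
    obtain ⟨-, c2⟩ := a1 L e1 ℵ₀ Cardinal.isRegular_aleph0 hωL K hKr hLK (hR K hKr hLK)
    exact nmeas_of_msrK Cardinal.isRegular_aleph0 hωL hKr hLK ((c2 x hx).resolve_left hz)

end HD.SD
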