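import Pool.Agent.H98.SD.TargetsR
import Pool.Agent.H7.HD.All

/-!
# MP_e37c09_lc: assembly of the board sd2
-/

open Ordinal Cardinal Order Set
open scoped ZFSet

universe u

namespace Pool.Agent.H59.SD

open _root_.HD HD.SD
open HD.NF (w0)

theorem pf_t : ∃ t : Ordinal.{u} → Ordinal.{u} → Ordinal.{u}, PF t := by
  obtain ⟨t, h1, h2, h3⟩ := All.pr.{u}
  exact ⟨t, ⟨h1, h2, h3⟩⟩

theorem omega_lt {δ : Ordinal.{u}} (hδ : Extendible δ) : ω < δ := by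
  obtain ⟨η, -, θ, j, hE⟩ := All.xa δ hδ δ
  obtain ⟨D, rfl, -, -, hD⟩ := All.xb δ η θ j hE
  rwa [Cardinal.lt_ord, Ordinal.card_omega0]

theorem stg {L : Cardinal.{u}} (hL : SLC ω L) : ∃ en t, Stg.{u} en t L := by
  obtain ⟨en, hen⟩ := All.en.{u}
  obtain ⟨t, ht⟩ := pf_t.{u}
  refine ⟨en, t, hen, ht, ?_, hL.lim⟩
  have h := hL.lt
  rwa [Cardinal.lt_ord, Ordinal.card_omega0] at h

/-- the first case -/
theorem one (hUNF : T_UNF.{u}) (hCV2 : T_CV2.{u}) (hCL2 : T_CL2.{u}) {en t} {L : Cardinal.{u}}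
    (hS : Stg en t L) (hL : SLC ω L) (hR : Rfl L) {x : ZFSet.{u}} (h1 : Cdd t L x)
    (h2 : Cof L x) (h3 : ∀ m < L.ord, Spl en (succ L).ord x m) : WOP L := by
  obtain ⟨P, hP, hF⟩ := hUNF en hS.hen L x h3
  have h4 := hCV2 L hL hR x h2 P hP hF
  exact ⟨x, h1.sub, hCL2 en t L hS hL.cof x h1 h4⟩

/-- the second case -/
theorem two (hTRN : T_TRN.{u}) (hCDC : T_CDC.{u}) (hUNM : T_UNM.{u}) (hALL : T_ALL.{u})
    (hATM : T_ATM.{u}) (hSET : T_SET.{u}) (hPFC : T_PFC.{u}) (hREG : T_REG.{u}) {en t}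
    {L : Cardinal.{u}} (hS : Stg en t L) (hL : SLC ω L)
    (hno : ¬ ∃ x, Cdd t L x ∧ Cof L x ∧ ∀ m < L.ord, Spl en (succ L).ord x m) :
    ∃ τ T, Msr L τ T := by
  have h1 : ∀ x, Cdd t L x → ∃ m < L.ord, ¬ Spl en (succ L).ord x m := by
    intro x hx
    obtain ⟨x', h2, h3, h4⟩ := hCDC en t L hS hL.cof x hx.sub
    by_contra hcon
    push Not at hcon
    exact hno ⟨x', h2, h3, fun m hm => (hTRN en hS.hen x x' h4).2.2 _ _ (hcon m hm)⟩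
  obtain ⟨M, hM1, hM2, hM3⟩ := hUNM en t L hS hL.cof h1
  obtain ⟨x, hx, hx2⟩ := hALL en t L hS M hM1 hM2 hM3
  obtain ⟨τ, hτ, T, h2, h3, h4, h5, h6⟩ := hATM en t L hS M hM1 hM2 x hx (hM3 x hx.sub) hx2
  exact ⟨τ, T, hτ, h2, h3, h4, ⟨x, hx.sub, h5⟩,
    fun i hi => hSET en hS.hen L hS.unc _ (h6 i hi),
    fun i hi => hPFC en hS.hen L hS.unc _ (h6 i hi),
    fun i hi => hREG en hS.hen L hS.unc _ (h2 i hi) (h6 i hi)⟩

theorem asm_main2 (hTRN : T_TRN.{u}) (hCDC : T_CDC.{u}) (hUNM : T_UNM.{u}) (hALL : T_ALL.{u})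
    (hATM : T_ATM.{u}) (hSET : T_SET.{u}) (hPFC : T_PFC.{u}) (hREG : T_REG.{u})
    (hNIJ : T_NIJ.{u}) (hWIJ : T_WIJ.{u}) (hUNF : T_UNF.{u}) (hCV2 : T_CV2.{u})
    (hCL2 : T_CL2.{u}) (hRE2 : T_RE2.{u}) (hCAS : T_CAS.{u}) : T_MAIN2.{u} := by
  refine ⟨fun L hL hR => ?_, fun δ hδ L hL => ?_⟩
  · obtain ⟨en, t, hS⟩ := stg hL
    have hdich : WOP L ∨ ∃ τ T, Msr L τ T := by
      by_cases h : ∃ x, Cdd t L x ∧ Cof L x ∧ ∀ m < L.ord, Spl en (succ L).ord x m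
      · obtain ⟨x, h1, h2, h3⟩ := h
        exact Or.inl (one hUNF hCV2 hCL2 hS hL hR h1 h2 h3)
      · exact Or.inr (two hTRN hCDC hUNM hALL hATM hSET hPFC hREG hS hL h)
    refine ⟨hdich, hWIJ L hS.unc, fun h => ?_⟩
    rcases hdich with h1 | ⟨τ, T, h1⟩
    · exact h1
    · exact absurd (hNIJ L hS.unc τ T h1) h
  · have hω := omega_lt hδ
    have hL' : SLC ω L := ⟨hL.lim, hL.cof, hω.trans hL.lt⟩
    have hR := hRE2 δ hδ L hL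
    refine ⟨hL', hR, fun hA => ?_⟩
    obtain ⟨en, t, hS⟩ := stg hL'
    obtain ⟨x, h1, h2, -⟩ := hCDC en t L hS hL.cof ∅
      (fun z hz => absurd hz (ZFSet.notMem_empty z))
    exact one hUNF hCV2 hCL2 hS hL' hR h1 h2 fun m hm => hCAS δ hδ hA L hL en hS.hen x m hm

end Pool.Agent.H59.SD
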