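import Pool.Agent.H98.SD.TargetsM
import Pool.Agent.H59.SD.Asm

/-!
# MP_e37c09_lc: assembly of the second list of the board sd2
-/

open Ordinal Cardinal Order Set
open scoped ZFSet

universe u

namespace HD.SD

/-- The theorem. -/
def T_MAIN4 : Prop :=
  (∀ L : Cardinal.{u}, SLC ω L → ∀ M : Cardinal.{u}, M.IsRegular → M < L → RflM M.ord L →
    (WOP L ↔ ¬ ∃ τ T, MsrM (fun y => y ⊆ L.ord.toZFSet) M.ord L τ T) ∧
    (WOP L ↔ ¬ NoInj L) ∧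
    ∀ x, Bdx L x → ((∀ z, z ⊆ L.ord.toZFSet → NF.ODp x z) ↔
      ¬ ∃ τ T, MsrM (fun y => y = x) M.ord L τ T)) ∧
  ∀ δ : Ordinal.{u}, Extendible δ → ∀ L : Cardinal.{u}, SLC δ L →
    SLC ω L ∧ (∀ M : Cardinal.{u}, M.IsRegular → M.ord < δ → M < L ∧ RflM M.ord L) ∧
      (CaseA δ → WOP L ∧ ∀ x, Bdx L x → ∀ z, z ⊆ L.ord.toZFSet → NF.ODp x z)

end HD.SD

namespace Pool.Agent.H59.SD

open _root_.HD HD.SD
open HD.NF (w0)

theorem gp_sub (L : Cardinal.{u}) : Gp fun y => y ⊆ L.ord.toZFSet := by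
  refine ⟨fun v => ∀ z ∈ v 0, z ∈ L.ord.toZFSet, ?_, fun x _ y => Iff.rfl⟩
  exact DZ.od (R := fun b v => ∀ z ∈ v 0, z ∈ b) (OD.ordinal _) (DZ.allMem 1 (DZ.mem 0 1))

theorem gp_one (x : ZFSet.{u}) : Gp fun y => y = x := by
  refine ⟨fun v => v 0 = v 1, DZ.eq 0 1, fun x' hx' y => ?_⟩
  show y = x ↔ y = x'
  rw [hx']

theorem splM_mono {en : Ordinal.{u} → ZFSet.{u}} {μ κ : Ordinal.{u}} {x : ZFSet.{u}}
    {m m' : Ordinal.{u}} (h : m ≤ m') (hs : SplM en μ κ x m') : SplM en μ κ x m := by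
  obtain ⟨c, h1, h2⟩ := hs
  exact ⟨c, fun i hi => h1 i (hi.trans_le h), h2⟩

/-- the first case -/
theorem oneM (hUFM : T_UFM.{u}) (hCVM : T_CVM.{u}) (hCL2 : T_CL2.{u}) {en t}
    {L : Cardinal.{u}} (hS : Stg en t L) (hL : SLC ω L) {μ : Ordinal.{u}} (hR : RflM μ L)
    {x : ZFSet.{u}} (h1 : Cdd t L x) (h2 : Cof L x)
    (h3 : ∀ m < L.ord, SplM en μ (succ L).ord x m) : ∀ z, z ⊆ L.ord.toZFSet → NF.ODp x z := by
  obtain ⟨P, hP, hF⟩ := hUFM en hS.hen μ L x h3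
  exact hCL2 en t L hS hL.cof x h1 (hCVM L hL μ hR x h2 P hP hF)

/-- the second case, for a class of parameters -/
theorem twoM (hTRN : T_TRN.{u}) (hATT : T_ATT.{u}) (hSEM : T_SEM.{u}) (hPFM : T_PFM.{u})
    (hREM : T_REM.{u}) (hMEC : T_MEC.{u}) {en t} {L : Cardinal.{u}} (hS : Stg en t L)
    {μ : Ordinal.{u}} {A : ZFSet.{u} → Prop} (hA : Gp A) {x x' : ZFSet.{u}} (hx : A x)
    (h1 : Cdd t L x') (h2 : NF.ODp x x') {M : Cardinal.{u}} (hM1 : ℵ₀ ≤ M) (hM2 : M < L)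
    (h3 : ¬ SplM en μ (succ L).ord x' M.ord)
    (h4 : ∀ y, A y → ∀ c, ∃ c', EqvM μ (succ L).ord (Sc en y c) (Sc en x' c')) :
    ∃ τ T, MsrM A μ L τ T := by
  obtain ⟨τ, hτ, T, h5, h6, h7, h8, h9⟩ := hATT en t L hS M hM1 hM2 μ x' h1 h3
  have h8' : ∀ i < τ, NF.ODp x (os (succ L).ord (T i)) := fun i hi =>
    (hTRN en hS.hen x' x h2).1 _ (h8 i hi)
  have hind : ∀ y, A y → ∀ i < τ, IndM en μ L y (T i) := fun y hy => h9 y (h4 y hy)
  refine ⟨τ, T, hτ, h5, h6, h7, ⟨x, hx, h8'⟩, fun i hi => ?_, fun i hi y F hy hF hf =>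
    hPFM en hS.hen L hS.unc μ y _ (hind y hy i hi) F hF hf⟩
  exact hMEC A hA L hS.unc μ (T i) ⟨x, hx, h8' i hi⟩ (h5 i hi)
    (fun y B hy hB => hSEM en hS.hen L hS.unc μ y _ (hind y hy i hi) B hB)
    (fun y F hy hF hf hr => hREM en hS.hen L hS.unc μ y _ (h5 i hi) (hind y hy i hi) F hF hf hr)

/-- a cardinal for which there is no partition -/
theorem exM {en t} {L : Cardinal.{u}} (hS : Stg en t L) {μ : Ordinal.{u}} {x : ZFSet.{u}}
    (h : ¬ ∀ m < L.ord, SplM en μ (succ L).ord x m) :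
    ∃ M : Cardinal.{u}, ℵ₀ ≤ M ∧ M < L ∧ ¬ SplM en μ (succ L).ord x M.ord := by
  push Not at h
  obtain ⟨m, hm, hs⟩ := h
  have hm' : m.card < L := Cardinal.lt_ord.1 hm
  refine ⟨max ℵ₀ ((2 : Cardinal.{u}) ^ m.card), le_max_left _ _, max_lt hS.unc (hS.lim _ hm'),
    fun h => hs (splM_mono ?_ h)⟩
  refine le_trans (Cardinal.lt_ord.2 (Cardinal.cantor m.card)).le (Cardinal.ord_le_ord.2 ?_)
  exact le_max_right _ _

theorem asm_main4 (hTRN : T_TRN.{u}) (hTRM : T_TRM.{u}) (hCDC : T_CDC.{u}) (hUNN : T_UNN.{u})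
    (hALM : T_ALM.{u}) (hATT : T_ATT.{u}) (hSEM : T_SEM.{u}) (hPFM : T_PFM.{u})
    (hREM : T_REM.{u}) (hMEC : T_MEC.{u}) (hNIM : T_NIM.{u}) (hWIM : T_WIM.{u})
    (hUFM : T_UFM.{u}) (hCVM : T_CVM.{u}) (hCL2 : T_CL2.{u}) (hRFM : T_RFM.{u})
    (hBDX : T_BDX.{u}) (hEQM : T_EQM.{u}) (hCAS : T_CAS.{u}) : T_MAIN4.{u} := by
  refine ⟨fun L hL M hM hML hR => ?_, fun δ hδ L hL => ?_⟩
  · obtain ⟨en, t, hS⟩ := stg hL
    have hcof : ℵ₀ < (succ L).ord.cof := by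
      rw [(Cardinal.isRegular_succ hS.unc.le).cof_ord]
      exact hS.unc.trans (Order.lt_succ L)
    -- the injection
    have hinj : ∀ x, x ⊆ L.ord.toZFSet → (∀ z, z ⊆ L.ord.toZFSet → NF.ODp x z) →
        ∀ A : ZFSet.{u} → Prop, A x → ¬ ∃ τ T, MsrM A M.ord L τ T := by
      rintro x hx h A hA ⟨τ, T, hT⟩
      obtain ⟨F, h1, h2, h3⟩ := hWIM L hS.unc x hx h
      obtain ⟨a, b, z, h4, h5, h6, h7⟩ := hNIM L hS.unc M hM hML A τ T hT x F hA h1 h2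
      exact h3 a b z h4 h5 h6 h7
    -- the second alternative
    have htwo : ¬ WOP L → ∃ τ T, MsrM (fun y => y ⊆ L.ord.toZFSet) M.ord L τ T := by
      intro hno
      have h1 : ∀ x, Cdd t L x → ∃ m < L.ord, ¬ SplM en M.ord (succ L).ord x m := by
        intro x hx
        obtain ⟨x', h2, h3, h4⟩ := hCDC en t L hS hL.cof x hx.sub
        by_contra hcon
        push Not at hcon
        exact hno ⟨x', h2.sub, oneM hUFM hCVM hCL2 hS hL hR h2 h3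
          fun m hm => hTRM en hS.hen x x' h4 _ _ _ (hcon m hm)⟩
      obtain ⟨N, hN1, hN2, hN3⟩ := hUNN en t L hS M.ord h1
      obtain ⟨x, hx, hx2⟩ := hALM en t L hS N hN1 hN2 M.ord hN3
      have hxx : NF.ODp x x := by
        obtain ⟨x', -, -, h4⟩ := hCDC en t L hS hL.cof x hx.sub
        exact Pool.Agent.H45.NF.ODp.of_dz (Q := fun v => v 0 = v 1) (DZ.eq 0 1) fun y => Iff.rfl
      exact twoM hTRN hATT hSEM hPFM hREM hMEC hS (gp_sub L) (x := x) hx.sub hx hxx hN1 hN2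
        (hN3 x hx.sub) hx2
    refine ⟨⟨?_, fun h => ?_⟩, ⟨?_, fun h => ?_⟩, fun x hx => ⟨?_, fun h => ?_⟩⟩
    · rintro ⟨x, h1, h2⟩
      exact hinj x h1 h2 _ h1
    · by_contra hno
      exact h (htwo hno)
    · rintro ⟨x, h1, h2⟩ hN
      obtain ⟨F, h3, h4, h5⟩ := hWIM L hS.unc x h1 h2
      obtain ⟨a, b, z, h6, h7, h8, h9⟩ := hN x F h1 h3 h4
      exact h5 a b z h6 h7 h8 h9
    · by_contra hno
      obtain ⟨τ, T, hT⟩ := htwo hno
      exact h fun y F hy hF hf => hNIM L hS.unc M hM hML _ τ T hT y F hy hF hf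
    · intro h
      exact hinj x hx.sub h _ rfl
    · obtain ⟨x', h1, h2, h3, h4⟩ := hBDX en t L hS hL.cof x hx
      by_cases hs : ∀ m < L.ord, SplM en M.ord (succ L).ord x' m
      · intro z hz
        exact (hTRN en hS.hen x' x h3).1 z (oneM hUFM hCVM hCL2 hS hL hR h1 h2 hs z hz)
      · exfalso
        obtain ⟨N, hN1, hN2, hN3⟩ := exM hS hs
        refine h (twoM hTRN hATT hSEM hPFM hREM hMEC hS (gp_one x) (x := x) rfl h1 h3 hN1 hN2 hN3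
          fun y hy c => ?_)
        obtain ⟨c', hc'⟩ := (hTRN en hS.hen x x' h4).2.1 (succ L).ord c
        refine ⟨c', (hEQM M.ord (succ L).ord hcof).2.2.2 _ _ fun b hb => ?_⟩
        rw [hc', hy]
        exact ⟨fun h => ⟨hb, h⟩, fun h => h.2⟩
  · have hω := omega_lt hδ
    have hL' : SLC ω L := ⟨hL.lim, hL.cof, hω.trans hL.lt⟩
    have hw : (ℵ₀ : Cardinal.{u}).ord < δ := by
      rw [Cardinal.ord_aleph0]
      exact hω
    have hR : RflM w0 L := hRFM δ hδ L hL ℵ₀ Cardinal.isRegular_aleph0 hw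
    refine ⟨hL', fun M hM hMδ => ⟨Cardinal.ord_lt_ord.1 (hMδ.trans hL.lt),
      hRFM δ hδ L hL M hM hMδ⟩, fun hA => ?_⟩
    obtain ⟨en, t, hS⟩ := stg hL'
    have hall : ∀ x, Cdd t L x → Cof L x → ∀ z, z ⊆ L.ord.toZFSet → NF.ODp x z :=
      fun x h1 h2 => oneM hUFM hCVM hCL2 hS hL' hR h1 h2
        fun m hm => hCAS δ hδ hA L hL en hS.hen x m hm
    constructor
    · obtain ⟨x, h1, h2, -⟩ := hCDC en t L hS hL.cof ∅
        (fun z hz => absurd hz (ZFSet.notMem_empty z))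
      exact ⟨x, h1.sub, hall x h1 h2⟩
    · intro x hx z hz
      obtain ⟨x', h1, h2, h3, h4⟩ := hBDX en t L hS hL.cof x hx
      exact (hTRN en hS.hen x' x h3).1 z (hall x' h1 h2 z hz)

end Pool.Agent.H59.SD
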