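import Pool.Agent.H98.SD.TargetsR
import Pool.Agent.H17.HD.XK

/-!
# Rows CL1, CL2 (MP_e37c09_lc): conclusion of the first case
-/

open Ordinal Cardinal Order Set
open scoped ZFSet

universe u

namespace Pool.Agent.H59.SD

open _root_.HD HD.SD
open HD.NF (w0)

theorem cofseq {L : Cardinal.{u}} (h : L.ord.cof = ℵ₀) : ∃ m : Ordinal.{u} → Ordinal.{u},
    (∀ n < w0, m n < L.ord) ∧ ∀ b < L.ord, ∃ n < w0, b ≤ m n := by
  classical
  obtain ⟨f, hf⟩ := exists_blsub_cof L.ord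
  refine ⟨fun n => if hn : n < L.ord.cof.ord then f n hn else 0, fun n hn => ?_, fun b hb => ?_⟩
  · have hn' : n < L.ord.cof.ord := by
      rw [h]
      exact hn
    have := lt_blsub f n hn'
    rw [hf] at this
    simp only [dif_pos hn']
    exact this
  · rw [← hf, lt_blsub_iff] at hb
    obtain ⟨i, hi, hle⟩ := hb
    refine ⟨i, ?_, ?_⟩
    · rw [h] at hi
      exact hi
    · simp only [dif_pos hi]
      exact hle

/-- the definition of `z` from the code `w 1` of a set of indices -/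
def Pz (t : Ordinal.{u} → Ordinal.{u} → Ordinal.{u})
    (S : ZFSet.{u} → (ℕ → Ordinal.{u}) → Prop) (x : ZFSet.{u}) (w : ℕ → Ordinal.{u}) : Prop :=
  ∃ q : Ordinal.{u}, ∃ i : Ordinal.{u}, ∃ c : Ordinal.{u}, ∃ d : Ordinal.{u},
    nth {b | S x (cns b fun n => w (n + 2))} i q ∧ i ∈ dec t x (w 1) ∧ q = t c d ∧ w 0 < c ∧
      w 0 ∈ dec t x d

theorem dx_Pz (hDXN : T_DXN.{u}) (hDXD : T_DXD.{u}) {t : Ordinal.{u} → Ordinal.{u} → Ordinal.{u}}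
    (ht : PF t) {S : ZFSet.{u} → (ℕ → Ordinal.{u}) → Prop} (hS : DX S) : DX (Pz t S) := by
  refine DX.ex (S := fun q x w => ∃ i : Ordinal.{u}, ∃ c : Ordinal.{u}, ∃ d : Ordinal.{u},
    nth {b | S x (cns b fun n => w (n + 2))} i q ∧ i ∈ dec t x (w 1) ∧ q = t c d ∧ w 0 < c ∧
      w 0 ∈ dec t x d) ?_
  refine DX.ex (S := fun i x w => ∃ c : Ordinal.{u}, ∃ d : Ordinal.{u},
    nth {b | S x (cns b fun n => w (n + 3))} i (w 0) ∧ i ∈ dec t x (w 2) ∧ w 0 = t c d ∧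
      w 1 < c ∧ w 1 ∈ dec t x d) ?_
  refine DX.ex (S := fun c x w => ∃ d : Ordinal.{u},
    nth {b | S x (cns b fun n => w (n + 4))} (w 0) (w 1) ∧ w 0 ∈ dec t x (w 3) ∧ w 1 = t c d ∧
      w 2 < c ∧ w 2 ∈ dec t x d) ?_
  refine DX.ex (S := fun d x w =>
    nth {b | S x (cns b fun n => w (n + 5))} (w 1) (w 2) ∧ w 1 ∈ dec t x (w 4) ∧
      w 2 = t (w 0) d ∧ w 3 < w 0 ∧ w 3 ∈ dec t x d) ?_
  refine DX.and ?_ (DX.and ?_ (DX.and ?_ (DX.and ?_ ?_)))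
  · exact (hDXN S hS).ren fun n => if n = 0 then 2 else if n = 1 then 3 else n + 4
  · exact (hDXD t ht).ren fun n => if n = 0 then 2 else 5
  · exact DX.o (DO.s3 (X := fun a b c => c = t a b) ht.dz 1 0 3)
  · exact DX.o (DO.lt 4 1)
  · exact (hDXD t ht).ren fun n => if n = 0 then 4 else 0

theorem pf_CL2 (hVH : T_VH.{u}) (hODY : T_ODY.{u}) (hDXN : T_DXN.{u}) (hDXD : T_DXD.{u}) :
    T_CL2.{u} := by
  intro en t L hS hcof x hx hC z hz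
  obtain ⟨m, hm1, hm2⟩ := cofseq hcof
  have hL : ℵ₀ ≤ L := hS.unc.le
  have hlim : IsSuccLimit L.ord := Cardinal.isSuccLimit_ord hL
  have hξ : ∀ n, ∃ ξ, n < w0 → ξ < L.ord ∧ ∀ a < m n, (a ∈ dec t x ξ ↔ a.toZFSet ∈ z) := by
    intro n
    by_cases hn : n < w0
    · obtain ⟨ξ, h1, h2⟩ := hx.all (m n) (hm1 n hn) {a | a.toZFSet ∈ z}
      exact ⟨ξ, fun _ => ⟨h1, h2⟩⟩
    · exact ⟨0, fun h => absurd h hn⟩
  choose ξ hξ using hξ
  have hp : ∀ n < w0, t (m n) (ξ n) < L.ord := fun n hn =>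
    hS.ht.lt L hL _ (hm1 n hn) _ (hξ n hn).1
  obtain ⟨S, hSd, w, hfew, hsub⟩ := hC {a | ∃ n < w0, a = t (m n) (ξ n)}
    (by rintro a ⟨n, hn, rfl⟩; exact hp n hn)
    ⟨fun n => t (m n) (ξ n), by rintro a ⟨n, hn, rfl⟩; exact ⟨n, hn, rfl⟩⟩
  obtain ⟨τ, hτ, e, he⟩ := hfew
  have hfew' : Few (succ τ.card).ord {a | S x (cns a w)} :=
    ⟨τ, Cardinal.lt_ord.2 (Order.lt_succ _), e, he⟩
  obtain ⟨ζ, hζ, -, hidx⟩ := Pool.Agent.H17.HD.XK.idx hVH hfew'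
  have hζL : ζ < L.ord := by
    refine hζ.trans_le (Cardinal.ord_le_ord.2 ?_)
    exact Order.succ_le_of_lt (Cardinal.lt_ord.1 hτ)
  obtain ⟨ν, hν1, hν2⟩ := hx.all ζ hζL
    {i | ∃ a, nth {a | S x (cns a w)} i a ∧ ∃ n < w0, a = t (m n) (ξ n)}
  have key := hODY _ (dx_Pz hDXN hDXD hS.ht hSd) x L.ord (cns ν w)
  have hz' : z = os L.ord {b | Pz t S x (cns b (cns ν w))} := by
    ext y
    rw [mem_os]
    constructor
    · intro hy
      obtain ⟨a, ha, rfl⟩ := mem_toZFSet_iff.1 (hz hy)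
      refine ⟨a, ha, ?_, rfl⟩
      obtain ⟨n, hn, hle⟩ := hm2 _ (hlim.succ_lt ha)
      have han : a < m n := lt_of_lt_of_le (Order.lt_succ a) hle
      have hq : S x (cns (t (m n) (ξ n)) w) := hsub _ ⟨n, hn, rfl⟩
      obtain ⟨i, -, hi⟩ := (hVH {a | S x (cns a w)}).1 _ hq
      exact ⟨t (m n) (ξ n), i, m n, ξ n, hi, (hν2 i (hidx i _ hi)).2 ⟨_, hi, n, hn, rfl⟩, rfl, han,
        ((hξ n hn).2 a han).2 hy⟩
    · rintro ⟨a, ha, ⟨q, i, c, d, h1, h2, h3, h4, h5⟩, rfl⟩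
      have h1' : nth {a | S x (cns a w)} i q := h1
      obtain ⟨a', h6, n, hn, h7⟩ := (hν2 i (hidx i q h1')).1 h2
      have h8 : q = a' := Pool.Agent.H17.HD.XK.nth_uniq hVH h1' h6
      rw [h8, h7] at h3
      obtain ⟨h9, h10⟩ := hS.ht.inj _ _ _ _ h3
      rw [← h9] at h4
      rw [← h10] at h5
      exact ((hξ n hn).2 a h4).1 h5
  rw [hz']
  exact key

theorem pf_CL1 (hVH : T_VH.{u}) (hODY : T_ODY.{u}) (hDXN : T_DXN.{u}) (hDXD : T_DXD.{u}) :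
    T_CL1.{u} := by
  intro en t L hS hcof δ hδL _ x hx hC z hz
  refine pf_CL2 hVH hODY hDXN hDXD en t L hS hcof x hx (fun y h1 h2 => ?_) z hz
  obtain ⟨S, hSd, w, ⟨τ, hτ, e, he⟩, h3⟩ := hC y h1 h2
  exact ⟨S, hSd, w, ⟨τ, hτ.trans hδL, e, he⟩, h3⟩

end Pool.Agent.H59.SD
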