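import Pool.Agent.H98.SD.Asm7
import Pool.Agent.H98.SD.ATT
import Pool.Agent.H98.SD.ATE
import Pool.Agent.H98.SD.TYE
import Pool.Agent.H59.SD.CL1
import Pool.Agent.H49.SD.ODX
import Pool.Agent.H50.SD.ODY
import Pool.Agent.H50.SD.MEC
import Pool.Agent.H67.SD.TRN
import Pool.Agent.H67.SD.TRM
import Pool.Agent.H99.SD.CDX
import Pool.Agent.H43.SD.CAS
import Pool.Agent.H90.SD.EQM
import Pool.Agent.H90.SD.MAX
import Pool.Agent.H90.SD.FWM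
import Pool.Agent.H57.SD.FNM
import Pool.Agent.H97.SD.NIM
import Pool.Agent.H81.SD.WIE
import Pool.Agent.H96.SD.UNN
import Pool.Agent.H63.SD2.UFM
import Pool.Agent.H63.SD2.DXD
import Pool.Agent.H56.SD.CVM
import Pool.Agent.H29.SD.RFM
import Pool.Agent.H29.SD.CLE
import Pool.Agent.H29.SD.BDE
import Pool.Agent.H70.SD.COM
import Pool.Agent.H52.SD.DXP
import Pool.Agent.H94.SD.DXN
import Pool.Agent.H94.SD.FEM
import Pool.Agent.H88.SD.COD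
import Pool.Agent.H88.SD.CDB
import Pool.Agent.H87.SD.TYM
import Pool.Agent.H30.SD.CNM
import Pool.Agent.H30.SD.CNE
import Pool.Agent.H25.SD.ALM
import Pool.Agent.H54.SD.NMX
import Pool.Agent.H54.SD.SCY
import Pool.Agent.H81.SD.SCX

/-!
# MP_e37c09_lc, SecondDichotomy: all rows
-/

open Ordinal Cardinal Order Set
open scoped ZFSet

universe u

namespace Pool.Agent.H59.SD

open _root_.HD HD.SD

theorem c_DXS : T_DXS.{u} := Pool.Agent.H70.SD.pf_DXS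
theorem c_COM : T_COM.{u} := Pool.Agent.H70.SD.pf_COM
theorem c_CO2 : T_CO2.{u} := Pool.Agent.H70.SD.pf_CO2
theorem c_DXP : T_DXP.{u} := Pool.Agent.H52.SD.pf_DXP
theorem c_DXN : T_DXN.{u} := Pool.Agent.H94.SD.pf_DXN
theorem c_DXD : T_DXD.{u} := Pool.Agent.H63.SD2.pf_DXD
theorem c_ODX : T_ODX.{u} := Pool.Agent.H49.SD.pf_ODX
theorem c_ODY : T_ODY.{u} := Pool.Agent.H50.SD.pf_ODY
theorem c_COD : T_COD.{u} := Pool.Agent.H88.SD.pf_COD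
theorem c_CDB : T_CDB.{u} := Pool.Agent.H88.SD.pf_CDB
theorem c_CDX : T_CDX.{u} := Pool.Agent.H99.SD.pf_CDX c_COD c_CDB c_DXD c_ODY
theorem c_TRN : T_TRN.{u} := Pool.Agent.H67.SD.pf_TRN
theorem c_TRM : T_TRM.{u} := Pool.Agent.H67.SD.pf_TRM
theorem c_EQM : T_EQM.{u} := Pool.Agent.H90.SD.pf_EQM
theorem c_MAX : T_MAX.{u} := Pool.Agent.H90.SD.pf_MAX
theorem c_FWM : T_FWM.{u} := Pool.Agent.H90.SD.pf_FWM
theorem c_FEM : T_FEM.{u} := Pool.Agent.H94.SD.pf_FEM c_DXN c_CO2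
theorem c_TYM : T_TYM.{u} := Pool.Agent.H87.SD.pf_TYM c_DXP c_DXD c_FEM
theorem c_CNM : T_CNM.{u} := Pool.Agent.H30.SD.pf_CNM c_DXS c_DXP c_DXN c_TYM
theorem c_TYE : T_TYE.{u} := Pool.Agent.H98.SD.E.pf_TYE c_DXP c_FEM
theorem c_CNE : T_CNE.{u} := Pool.Agent.H30.SD.pf_CNE c_DXS c_DXP c_DXN c_TYE

/-- all rows -/
theorem rows : R5.{u} where
  TRN := c_TRN
  CDC := Pool.Agent.H99.SD.pf_CDC c_COD c_CDB c_DXD c_ODY
  CAS := Pool.Agent.H43.SD.pf_CAS Pool.Agent.H43.SD.pf_ULM' c_CO2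
  CL2 := pf_CL2 All.vh c_ODY c_DXN c_DXD
  TRM := c_TRM
  EQM := c_EQM
  ALM := Pool.Agent.H25.SD.pf_ALM c_MAX c_CDX c_TRN c_CNM c_EQM
  ATT := Pool.Agent.H98.SD.pf_ATT c_DXS c_DXP c_DXN c_DXD c_ODY c_EQM c_TYM c_CNM
  SEM := Pool.Agent.H57.SD.pf_SEM c_ODX
  PFM := Pool.Agent.H57.SD.pf_PFM c_ODX c_COM c_DXS
  REM := Pool.Agent.H57.SD.pf_REM c_ODX c_COM c_DXS
  MEC := Pool.Agent.H50.SD.pf_MEC
  NIM := Pool.Agent.H97.SD.NIM.pf_NIM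
  UNN := Pool.Agent.H96.SD.pf_UNN c_CDX c_TRM
  UFM := Pool.Agent.H63.SD2.pf_UFM c_DXS c_DXP
  CVM := Pool.Agent.H56.SD.pf_CVM c_DXP c_FWM
  RFM := Pool.Agent.H29.SD.pf_RFM
  BDE := Pool.Agent.H29.SD.E.pf_BDE c_ODX c_DXS c_DXN c_ODY
  ATE := Pool.Agent.H98.SD.E.pf_ATE c_DXS c_DXP c_DXN c_ODY c_EQM c_TYE c_CNE
  CLE := Pool.Agent.H29.SD.pf_CLE All.vh c_ODY c_DXN
  WIE := Pool.Agent.H81.SD.pf_WIE c_DXS c_DXN

theorem main7 : T_MAIN7.{u} :=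
  asm7 rows (Pool.Agent.H54.SD.pf_NMX rows.WIE)
    (Pool.Agent.H81.SD.pf_SCX c_DXS c_DXN c_ODX c_ODY) Pool.Agent.H54.SD.pf_SCY

end Pool.Agent.H59.SD
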