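import Pool.Agent.H59.SD.Final
import Pool.Agent.H59.SD.Merge
import Pool.Agent.H98.SD.TYK
import Pool.Agent.H98.SD.ATK
import Pool.Agent.H98.SD.CNK
import Pool.Agent.H25.SD.ALK
import Pool.Agent.H57.SD.FNK
import Pool.Agent.H50.SD.MEK
import Pool.Agent.H96.SD.UNK
import Pool.Agent.H63.SD2.UFK
import Pool.Agent.H56.SD.CVK
import Pool.Agent.H29.SD.RFK

/-!
# MP_e37c09_lc, SecondDichotomy: all rows for the regular cardinals `K > L`, and the theorem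
-/

open Ordinal Cardinal Order Set
open scoped ZFSet

universe u

namespace Pool.Agent.H59.SD

open _root_.HD HD.SD

theorem c_TYK : T_TYK.{u} := Pool.Agent.H98.SD.K.pf_TYK c_DXP c_FEM
theorem c_CNK : T_CNK.{u} := Pool.Agent.H98.SD.KC.pf_CNK c_DXS c_DXP c_DXN c_TYK

/-- all rows for `K` -/
theorem rowsK : RK.{u} where
  DXD := c_DXD
  ALK := Pool.Agent.H25.SD.pf_ALK c_MAX c_CDX c_DXD c_TRN c_CNK c_EQM
  ATK := Pool.Agent.H98.SD.K.pf_ATK c_DXS c_DXP c_DXN c_ODY c_EQM c_TYK c_CNK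
  SEK := Pool.Agent.H57.SD.pf_SEK c_ODX
  PFK := Pool.Agent.H57.SD.pf_PFK c_ODX c_COM c_DXS
  MEK := Pool.Agent.H50.SD.pf_MEK
  UNK := Pool.Agent.H96.SD.pf_UNK c_CDX c_TRM
  UFK := Pool.Agent.H63.SD2.pf_UFK c_DXS c_DXP
  CVK := Pool.Agent.H56.SD.pf_CVK c_DXP c_FWM
  RFK := Pool.Agent.H29.SD.pf_RFK

theorem main : T_FIN.{u} := fin (asm9 main7 (asm8 rows rowsK))

end Pool.Agent.H59.SD
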