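import Pool.Agent.H59.SD.Merge
import Pool.Agent.H98.SDT.Fin11

/-!
# MP_e37c09_lc, SecondDichotomy: the theorem
-/

open Ordinal Cardinal Order Set
open scoped ZFSet

universe u

namespace HD.SD

open HD.NF (w0)
open HD.HV (NMeas)

/-- The theorem. -/
def T_FIN2 : Prop :=
  (∀ L : Cardinal.{u}, SLC ω L → ∀ M : Cardinal.{u}, M.IsRegular → M < L →
    ∀ K : Cardinal.{u}, K.IsRegular → L < K → RflK M.ord K L →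
      (WOP L ∨ ∃ τ T, MsrK (fun y => y ⊆ L.ord.toZFSet) M.ord K L τ T) ∧
      ∀ x, Bde L x → (∀ z, z ⊆ L.ord.toZFSet → NF.ODp x z) ∨
        ∃ τ T, MsrK (fun y => y = x) M.ord K L τ T) ∧
  (∀ L : Cardinal.{u}, SLC ω L → ∀ M : Cardinal.{u}, M.IsRegular → M < L →
    RflK M.ord (succ L) L →
      (WOP L ↔ ¬ ∃ U, CM (NC fun y => y ⊆ L.ord.toZFSet) (succ L).ord U) ∧
      (WOP L ↔ ¬ NoInj L) ∧
      (∀ x, (∀ m < L.ord, ∀ z, z ⊆ m.toZFSet → NF.ODp x z) →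
        ((∀ z, z ⊆ L.ord.toZFSet → NF.ODp x z) ↔ SuX L x)) ∧
      ∀ x, Bde L x → ((∀ z, z ⊆ L.ord.toZFSet → NF.ODp x z) ↔
        ¬ ∃ U, CM (NC fun y => y = x) (succ L).ord U)) ∧
  ∀ δ : Ordinal.{u}, Extendible δ → ∀ L : Cardinal.{u}, SLC δ L →
    SLC ω L ∧
    (∀ M : Cardinal.{u}, M.IsRegular → M.ord < δ → M < L ∧
      ∀ K : Cardinal.{u}, K.IsRegular → L < K → RflK M.ord K L) ∧
    (WOP L ↔ ¬ ∀ K : Cardinal.{u}, K.IsRegular → L < K →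
      ∃ U, NMeas (NC fun y => y ⊆ L.ord.toZFSet) K.ord U) ∧
    (∀ x, Bde L x → ((∀ z, z ⊆ L.ord.toZFSet → NF.ODp x z) ↔
      ¬ ∀ K : Cardinal.{u}, K.IsRegular → L < K → ∃ U, NMeas (NC fun y => y = x) K.ord U)) ∧
    (∀ x, (∀ m < L.ord, ∀ z, z ⊆ m.toZFSet → NF.ODp x z) →
      ((∀ z, z ⊆ L.ord.toZFSet → NF.ODp x z) ↔ ∃ G, L ≤ G ∧ SuX G x)) ∧
    (CaseA δ → WOP L ∧ ∀ x, (∀ m < L.ord, ∀ z, z ⊆ m.toZFSet → NF.ODp x z) →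
      ∀ z, z ⊆ L.ord.toZFSet → NF.ODp x z)

theorem fin2 (h : T_FIN.{u}) (hs : T_SUC.{u}) (h3 : T_SU3.{u}) : T_FIN2.{u} := by
  obtain ⟨a1, a2, a3⟩ := h
  refine ⟨a1, fun L h M hMr hML hR => ?_, fun δ hδ L h => ?_⟩
  · obtain ⟨b1, b2, b3⟩ := a2 L h M hMr hML hR
    exact ⟨b1, b2, hs L h M hMr hML hR, fun x hx => (b3 x hx).2⟩
  · obtain ⟨e1, e2, e3, e4, e5⟩ := a3 δ hδ L h
    exact ⟨e1, e2, e3, e4, h3 δ hδ L h, e5⟩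

theorem main : T_FIN2.{u} := fin2 (fin main9) suc su3'

end HD.SD
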