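import Pool.Agent.H98.SD.Defs

/-!
# MP_e37c09_lc: the measures of the second alternative are elements of HOD(P(L))
-/

open Ordinal Cardinal Order Set
open scoped ZFSet

universe u

namespace HD.SD

open HD.NF (w0)
open HD.HV (NMeas)

/-! ## Statement-level definitions -/

/-- `x` is definable from ordinals and a subset of `L`. -/
def PS (L : Cardinal.{u}) (x : ZFSet.{u}) : Prop := ∃ y, y ⊆ L.ord.toZFSet ∧ NF.ODp y x

/-- `x` is an element of HOD(P(L)): it is hereditarily definable from ordinals and subsets of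
`L`. -/
def NP (L : Cardinal.{u}) (x : ZFSet.{u}) : Prop := x.Hereditarily (PS L)

/-- the set of all subsets of the successor of `L` in HOD(P(L)) which contain almost all points of
cofinality `ω` of `S` -/
noncomputable def UP (L : Cardinal.{u}) (S : Set Ordinal.{u}) : ZFSet.{u} :=
  ZFSet.sep (fun x => NP L x ∧ ¬ Pos w0 (succ L).ord {a | a ∈ S ∧ a.toZFSet ∉ x})
    (ZFSet.powerset (succ L).ord.toZFSet)

/-! ## Targets -/

/-- PSA. -/
def T_PSA : Prop :=
  (∀ (L : Cardinal.{u}) (x : ZFSet.{u}), OD x → PS L x) ∧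
  (∀ (L : Cardinal.{u}) (x : ZFSet.{u}), x ⊆ L.ord.toZFSet → PS L x) ∧
  (∀ (L : Cardinal.{u}) (κ : Ordinal.{u}) (x : ZFSet.{u}), x ⊆ κ.toZFSet → PS L x → NP L x) ∧
  ∀ L : Cardinal.{u}, ℵ₀ ≤ L → ∀ x y z : ZFSet.{u}, PS L x → PS L y →
    NF.ODp (ZFSet.pair x y) z → PS L z

/-- PSD. Definability. -/
def T_PSD : Prop := ∀ L : Cardinal.{u}, (DZ fun v => PS L (v 0)) ∧ DZ fun v => NP L (v 0)

/-- MIP. -/
def T_MIP : Prop := ∀ L : Cardinal.{u}, ℵ₀ ≤ L → ∀ S : Set Ordinal.{u},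
  PS L (os (succ L).ord S) → NP L (UP L S)

/-- MEP. The measures. -/
def T_MEP : Prop := ∀ L : Cardinal.{u}, ℵ₀ ≤ L → ∀ τ T, Msr L τ T → ∀ i < τ,
  NMeas (NP L) (succ L).ord (UP L (T i))

end HD.SD
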